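import Pool.Agent.Helper94.YF.St

/-! # YF module NRM: the squared norm bound -/

set_option autoImplicit false

namespace Pool.Agent.Helper2.YF

open Pool.Agent.Helper94.YF
open Matrix ComplexConjugate

private lemma so_ne {I : Type} [Fintype I] [DecidableEq I] (Z : CentreRep I) (t : I) :
    Z.rho Sm Z.o t ≠ 0 := by
  rw [Z.s_o]
  have h1 : (Z.d t : ℂ) ≠ 0 := Nat.cast_ne_zero.2 (Z.d_pos t).ne'
  have h2 : (Z.n : ℂ) ≠ 0 := Nat.cast_ne_zero.2 Z.n_pos.ne'
  exact div_ne_zero h1 h2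

private lemma so_conj {I : Type} [Fintype I] [DecidableEq I] (Z : CentreRep I) (t : I) :
    conj (Z.rho Sm Z.o t) = Z.rho Sm Z.o t := by
  rw [Z.s_o]
  simp

private lemma nu_mul {I : Type} [Fintype I] [DecidableEq I] (Z : CentreRep I) (t V j : I) :
    (Z.rho Sm V t / Z.rho Sm Z.o t) * Z.rho Sm j t = ∑ k, (Z.N V j k : ℂ) * Z.rho Sm k t := by
  have h0 := so_ne Z t
  have hv := Z.verlinde V j t
  rw [div_mul_eq_mul_div, hv, mul_div_assoc, mul_comm, div_mul_cancel₀ _ h0]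

private lemma nu_int {I : Type} [Fintype I] [DecidableEq I] (Z : CentreRep I) (t V : I) :
    IsIntegral ℤ (Z.rho Sm V t / Z.rho Sm Z.o t) := by
  have h0 := so_ne Z t
  refine isIntegral_of_smul_mem_submodule (M := ℂ)
    (Submodule.span ℤ (Set.range fun j => Z.rho Sm j t)) ?_
    (Submodule.fg_span (Set.finite_range _)) _ ?_
  · intro h
    rw [Submodule.span_eq_bot] at h
    exact h0 (h _ ⟨Z.o, rfl⟩)
  · intro x hx
    induction hx using Submodule.span_induction with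
    | mem x hx =>
      obtain ⟨j, rfl⟩ := hx
      simp only [smul_eq_mul]
      rw [nu_mul]
      refine Submodule.sum_mem _ fun k _ => ?_
      have : (Z.N V j k : ℂ) * Z.rho Sm k t = ((Z.N V j k : ℤ)) • Z.rho Sm k t := by
        rw [zsmul_eq_mul]; simp
      rw [this]
      exact Submodule.smul_mem _ _ (Submodule.subset_span ⟨k, rfl⟩)
    | zero => simp
    | add x y _ _ hx hy => rw [smul_add]; exact Submodule.add_mem _ hx hy
    | smul n x _ hx =>
      rw [smul_comm]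
      exact Submodule.smul_mem _ _ hx

/-- **YF MODULE NRM** -/
theorem hNRM : Pool.Agent.Helper94.YF.StNRM := by
  intro I _ _ Z g t i
  have h0 := so_ne Z t
  have hn : (Z.n : ℂ) ≠ 0 := Nat.cast_ne_zero.2 Z.n_pos.ne'
  have hd : (Z.d t : ℂ) ≠ 0 := Nat.cast_ne_zero.2 (Z.d_pos t).ne'
  set g' : SL Z.L := Sm⁻¹ * g with hg'
  have hW : ∀ V, IsIntegral ℤ (∑ k, ∑ l, Z.rho g' k i * conj (Z.rho g' l i) *
      (Z.N k (Z.st l) V : ℂ)) := fun V => Z.indicatorZ g' i i V
  have hsum : IsIntegral ℤ (∑ V, (∑ k, ∑ l, Z.rho g' k i * conj (Z.rho g' l i) *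
      (Z.N k (Z.st l) V : ℂ)) * (Z.rho Sm V t / Z.rho Sm Z.o t)) :=
    IsIntegral.sum _ fun V _ => (hW V).mul (nu_int Z t V)
  -- the row `t` of `rho g`
  have hrow : ∑ k, Z.rho g' k i * Z.rho Sm k t = Z.rho g t i := by
    have h1 : g = Sm * g' := by rw [hg', mul_inv_cancel_left]
    have h2 : Z.rho g t i = ∑ k, Z.rho Sm t k * Z.rho g' k i := by
      conv_lhs => rw [h1, map_mul, Matrix.mul_apply]
    rw [h2]
    refine Finset.sum_congr rfl fun k _ => ?_
    rw [Z.s_symm k t, mul_comm]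
  have hconj : ∑ l, conj (Z.rho g' l i) * Z.rho Sm (Z.st l) t = conj (Z.rho g t i) := by
    rw [← hrow, map_sum]
    refine Finset.sum_congr rfl fun k _ => ?_
    rw [Z.s_dual]
    exact ((starRingEnd ℂ).map_mul _ _).symm
  have hkl : ∀ k l, ∑ V, (Z.N k (Z.st l) V : ℂ) * (Z.rho Sm V t / Z.rho Sm Z.o t) =
      Z.rho Sm k t * Z.rho Sm (Z.st l) t / (Z.rho Sm Z.o t) ^ 2 := by
    intro k l
    have h1 : ∑ V, (Z.N k (Z.st l) V : ℂ) * (Z.rho Sm V t / Z.rho Sm Z.o t) =
        (∑ V, (Z.N k (Z.st l) V : ℂ) * Z.rho Sm V t) / Z.rho Sm Z.o t := by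
      rw [Finset.sum_div]
      exact Finset.sum_congr rfl fun V _ => by rw [mul_div_assoc]
    rw [h1, ← nu_mul]
    field_simp
  have hmain : ∑ V, (∑ k, ∑ l, Z.rho g' k i * conj (Z.rho g' l i) *
      (Z.N k (Z.st l) V : ℂ)) * (Z.rho Sm V t / Z.rho Sm Z.o t) =
      Z.rho g t i * conj (Z.rho g t i) / (Z.rho Sm Z.o t) ^ 2 := by
    calc ∑ V, (∑ k, ∑ l, Z.rho g' k i * conj (Z.rho g' l i) *
          (Z.N k (Z.st l) V : ℂ)) * (Z.rho Sm V t / Z.rho Sm Z.o t)
        = ∑ V, ∑ k, ∑ l, Z.rho g' k i * conj (Z.rho g' l i) *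
          ((Z.N k (Z.st l) V : ℂ) * (Z.rho Sm V t / Z.rho Sm Z.o t)) := by
          refine Finset.sum_congr rfl fun V _ => ?_
          rw [Finset.sum_mul]
          refine Finset.sum_congr rfl fun k _ => ?_
          rw [Finset.sum_mul]
          exact Finset.sum_congr rfl fun l _ => by rw [mul_assoc]
      _ = ∑ k, ∑ l, ∑ V, Z.rho g' k i * conj (Z.rho g' l i) *
          ((Z.N k (Z.st l) V : ℂ) * (Z.rho Sm V t / Z.rho Sm Z.o t)) := by
          rw [Finset.sum_comm]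
          exact Finset.sum_congr rfl fun k _ => Finset.sum_comm
      _ = ∑ k, ∑ l, (Z.rho g' k i * Z.rho Sm k t) * (conj (Z.rho g' l i) * Z.rho Sm (Z.st l) t) /
          (Z.rho Sm Z.o t) ^ 2 := by
          refine Finset.sum_congr rfl fun k _ => Finset.sum_congr rfl fun l _ => ?_
          rw [← Finset.mul_sum, hkl]
          ring
      _ = (∑ k, Z.rho g' k i * Z.rho Sm k t) * (∑ l, conj (Z.rho g' l i) * Z.rho Sm (Z.st l) t) /
          (Z.rho Sm Z.o t) ^ 2 := by
          rw [Finset.sum_mul_sum, Finset.sum_div]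
          exact Finset.sum_congr rfl fun k _ => (Finset.sum_div _ _ _).symm
      _ = _ := by rw [hrow, hconj]
  rw [hmain, Z.s_o] at hsum
  convert hsum using 1
  field_simp

end Pool.Agent.Helper2.YF
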