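import Pool.Agent.Helper94.YF.St

/-! # YF module RUL: relations between roots of unity of `2`-power order -/

set_option autoImplicit false

namespace Pool.Agent.Helper2.YF

open Pool.Agent.Helper94.YF

private lemma two_pow_split (a : ℕ) (ha : 2 ≤ a) : 2 ^ a = 2 ^ (a - 1) + 2 ^ (a - 1) := by
  rw [← two_mul, ← pow_succ']
  congr 1
  omega

private lemma zeta_half (a : ℕ) (ha : 2 ≤ a) (ζ : ℂ) (hζ : IsPrimitiveRoot ζ (2 ^ a)) :
    ζ ^ (2 ^ (a - 1)) = -1 := by
  have hpos : 0 < 2 ^ (a - 1) := by positivity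
  have h2 := two_pow_split a ha
  have h1 : (ζ ^ (2 ^ (a - 1))) * (ζ ^ (2 ^ (a - 1))) = 1 := by
    rw [← pow_add, ← h2, hζ.pow_eq_one]
  rcases mul_self_eq_one_iff.1 h1 with h | h
  · exact absurd h (hζ.pow_ne_one_of_pos_of_lt hpos.ne' (by omega))
  · exact h

open Classical in
private lemma rul_aux (a : ℕ) (I : Type) [Fintype I] (t : I → ℂ) (c : I → ℤ) (v : ℤ) (ha : 2 ≤ a)
    (ht : ∀ i, t i ^ (2 ^ a) = 1) (hs : ∑ i, (c i : ℂ) * t i = v) (ζ : ℂ)
    (hζ : IsPrimitiveRoot ζ (2 ^ a)) (C : ℕ → ℤ)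
    (hC : ∀ j, C j = ∑ i, (if t i = ζ ^ j then c i else 0)) :
    ∀ j < 2 ^ (a - 1), C j - C (j + 2 ^ (a - 1)) = if j = 0 then v else 0 := by
  have h2 := two_pow_split a ha
  have hζh := zeta_half a ha ζ hζ
  generalize hh : 2 ^ (a - 1) = h at *
  have hpos : 0 < h := by rw [← hh]; positivity
  -- the sum over the powers of `ζ`
  have hsum : ∑ i, (c i : ℂ) * t i = ∑ j ∈ Finset.range (2 ^ a), (C j : ℂ) * ζ ^ j := by
    have h1 : ∀ i, (c i : ℂ) * t i =
        ∑ j ∈ Finset.range (2 ^ a), (if t i = ζ ^ j then (c i : ℂ) * ζ ^ j else 0) := by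
      intro i
      obtain ⟨k, hk, hkt⟩ := hζ.eq_pow_of_pow_eq_one (ht i)
      rw [Finset.sum_eq_single k]
      · rw [if_pos hkt.symm, hkt]
      · intro j hj hjk
        rw [if_neg]
        intro hj2
        rw [← hkt] at hj2
        exact hjk (hζ.pow_inj hk (Finset.mem_range.1 hj) hj2).symm
      · intro hk2
        exact absurd (Finset.mem_range.2 hk) hk2
    rw [Finset.sum_congr rfl fun i _ => h1 i, Finset.sum_comm]
    refine Finset.sum_congr rfl fun j _ => ?_
    rw [hC, Int.cast_sum, Finset.sum_mul]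
    refine Finset.sum_congr rfl fun i _ => ?_
    split_ifs <;> simp
  have hsum2 : ∑ j ∈ Finset.range h, ((C j - C (j + h) : ℤ) : ℂ) * ζ ^ j = v := by
    rw [← hs, hsum, h2, Finset.sum_range_add, ← Finset.sum_add_distrib]
    refine Finset.sum_congr rfl fun j _ => ?_
    rw [pow_add, hζh, add_comm h j]
    push_cast
    ring
  -- the polynomial
  set f : Polynomial ℚ := ∑ j ∈ Finset.range h, Polynomial.monomial j ((C j - C (j + h) : ℤ) : ℚ) -
    Polynomial.C (v : ℚ) with hf
  have hcoeff : ∀ k, f.coeff k = (if k < h then ((C k - C (k + h) : ℤ) : ℚ) else 0) -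
      (if k = 0 then (v : ℚ) else 0) := by
    intro k
    rw [hf, Polynomial.coeff_sub, Polynomial.finsetSum_coeff, Polynomial.coeff_C]
    congr 1
    simp only [Polynomial.coeff_monomial]
    rw [Finset.sum_ite_eq' (Finset.range h) k]
    simp only [Finset.mem_range]
  have hroot : Polynomial.aeval ζ f = 0 := by
    rw [hf, map_sub, map_sum]
    simp only [Polynomial.aeval_monomial, Polynomial.aeval_C]
    rw [sub_eq_zero]
    have : (algebraMap ℚ ℂ) (v : ℚ) = (v : ℂ) := by simp
    rw [this, ← hsum2]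
    refine Finset.sum_congr rfl fun j _ => ?_
    simp
  have hdeg : f.degree < h := by
    rw [Polynomial.degree_lt_iff_coeff_zero]
    intro m hm
    rw [hcoeff, if_neg (by omega), if_neg (by omega), sub_zero]
  have hf0 : f = 0 := by
    by_contra hne
    have h3 := minpoly.degree_le_of_ne_zero ℚ ζ hne hroot
    rw [← Polynomial.cyclotomic_eq_minpoly_rat hζ (by positivity), Polynomial.degree_cyclotomic,
      Nat.totient_prime_pow Nat.prime_two (by omega), hh] at h3
    have h4 := lt_of_le_of_lt h3 hdeg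
    simp at h4
  intro j hj
  have h5 := hcoeff j
  rw [hf0, Polynomial.coeff_zero, if_pos hj] at h5
  have h6 : ((C j - C (j + h) : ℤ) : ℚ) = (if j = 0 then (v : ℚ) else 0) := by linarith
  split_ifs at h6 ⊢ with hj0
  · exact_mod_cast h6
  · exact_mod_cast h6

/-- **YF MODULE RUL** -/
theorem hRUL : Pool.Agent.Helper94.YF.StRUL := by
  classical
  intro a I _ t c v ha ht hs
  obtain ⟨ζ, hζ⟩ : ∃ ζ : ℂ, IsPrimitiveRoot ζ (2 ^ a) :=
    ⟨_, Complex.isPrimitiveRoot_exp (2 ^ a) (by positivity)⟩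
  have h2 := two_pow_split a ha
  have hζh := zeta_half a ha ζ hζ
  have key := rul_aux a I t c v ha ht hs ζ hζ
    (fun j => ∑ i, (if t i = ζ ^ j then c i else 0)) (fun j => rfl)
  have hpos : 0 < 2 ^ (a - 1) := by positivity
  constructor
  · have h0 := key 0 hpos
    simp only [if_true, pow_zero, zero_add, hζh] at h0
    convert h0 using 2 
  · intro x hx1 hx2
    by_cases hx : x ^ (2 ^ a) = 1
    · obtain ⟨k, hk, hkx⟩ := hζ.eq_pow_of_pow_eq_one hx
      have hk0 : k ≠ 0 := by
        rintro rfl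
        exact hx1 (by rw [← hkx, pow_zero])
      rcases lt_trichotomy k (2 ^ (a - 1)) with hlt | heq | hgt
      · have h0 := key k hlt
        simp only [if_neg hk0, pow_add, hζh, hkx, mul_neg, mul_one] at h0
        have h1 := sub_eq_zero.1 h0
        convert h1 using 2
      · exact absurd (by rw [← hkx, heq, hζh]) hx2
      · obtain ⟨j, rfl⟩ : ∃ j, k = j + 2 ^ (a - 1) := ⟨k - 2 ^ (a - 1), by omega⟩
        have h0 := key j (by omega)
        have hj0 : j ≠ 0 := by omega
        have hjx : ζ ^ j = -x := by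
          rw [← hkx, pow_add, hζh]; ring
        simp only [if_neg hj0, hkx, hjx] at h0
        have h1 := (sub_eq_zero.1 h0).symm
        convert h1 using 2
    · have h1 : ∀ i, t i ≠ x := by
        intro i hi
        exact hx (by rw [← hi]; exact ht i)
      have h3 : ∀ i, t i ≠ -x := by
        intro i hi
        apply hx
        have h4 := ht i
        rw [hi, Even.neg_pow ⟨_, h2⟩] at h4
        exact h4
      simp [h1, h3]

end Pool.Agent.Helper2.YF
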